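import Pool.Agent.W873.RS.Stm

set_option autoImplicit false

open MeasureTheory ProbabilityTheory Polynomial Filter Topology
open scoped ENNReal

namespace Pool.Agent.W899.RS.GA4

open Pool.Agent.W873.RS

lemma meas_ip {κ : Type} [Fintype κ] (u : κ → ℝ) : Measurable (fun z : κ → ℝ => ip z u) := by
  unfold ip
  fun_prop

lemma meas_S (t : ℝ) : MeasurableSet {q : ℝ × ℝ | sc (q.1 - t) (q.2 - t)} := by
  have h1 : MeasurableSet {q : ℝ × ℝ | q.1 - t < 0} :=
    measurableSet_lt (by fun_prop) measurable_const
  have h2 : MeasurableSet {q : ℝ × ℝ | q.2 - t < 0} :=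
    measurableSet_lt (by fun_prop) measurable_const
  have : {q : ℝ × ℝ | sc (q.1 - t) (q.2 - t)} =
      ({q : ℝ × ℝ | q.1 - t < 0} \ {q : ℝ × ℝ | q.2 - t < 0}) ∪
      ({q : ℝ × ℝ | q.2 - t < 0} \ {q : ℝ × ℝ | q.1 - t < 0}) := by
    ext q
    simp only [sc, Set.mem_ofPred_eq, Set.mem_union, Set.mem_sdiff]
    tauto
  rw [this]
  exact (h1.diff h2).union (h2.diff h1)

lemma key (h1 : Pool.Agent.W873.RS.GA1) {κ : Type} [Fintype κ] (u v : κ → ℝ) (c s t : ℝ)
    (hu : ∑ j, u j ^ 2 = 1) (hv : ∑ j, v j ^ 2 = 1) (hcs : c ^ 2 + s ^ 2 = 1)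
    (hr : c ^ 2 - s ^ 2 = ∑ j, u j * v j) :
    gm κ {z | sc (ip z u - t) (ip z v - t)} =
      ((gaussianReal 0 1).prod (gaussianReal 0 1))
        {p : ℝ × ℝ | sc (c * p.1 + s * p.2 - t) (c * p.1 - s * p.2 - t)} := by
  have h := congrArg (fun m : Measure (ℝ × ℝ) => m {q : ℝ × ℝ | sc (q.1 - t) (q.2 - t)})
    (h1 κ u v c s hu hv hcs hr)
  rw [Measure.map_apply ((meas_ip u).prodMk (meas_ip v)) (meas_S t),
    Measure.map_apply (by fun_prop) (meas_S t)] at h
  exact h

theorem main (h1 : Pool.Agent.W873.RS.GA1) (h3 : Pool.Agent.W873.RS.GA3) :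
    Pool.Agent.W873.RS.GA4 := by
  intro κ _ u v a r hu hv
  -- the angle
  obtain ⟨c, s, hc, hs, hcs, hr⟩ : ∃ c s : ℝ, 0 ≤ c ∧ 0 ≤ s ∧ c ^ 2 + s ^ 2 = 1 ∧
      c ^ 2 - s ^ 2 = ∑ j, u j * v j := by
    set ρ := ∑ j, u j * v j with hρ
    have hCS : ρ ^ 2 ≤ 1 := by
      have := Finset.sum_mul_sq_le_sq_mul_sq Finset.univ u v
      rw [hu, hv] at this
      simpa using this
    have hlo : -1 ≤ ρ := by nlinarith
    have hhi : ρ ≤ 1 := by nlinarith
    refine ⟨Real.sqrt ((1 + ρ) / 2), Real.sqrt ((1 - ρ) / 2), Real.sqrt_nonneg _,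
      Real.sqrt_nonneg _, ?_, ?_⟩
    · rw [Real.sq_sqrt (by linarith), Real.sq_sqrt (by linarith)]; ring
    · rw [Real.sq_sqrt (by linarith), Real.sq_sqrt (by linarith)]; ring
  have hnu : ∑ j, (-u) j ^ 2 = 1 := by simpa using hu
  have hnv : ∑ j, (-v) j ^ 2 = 1 := by simpa using hv
  have hnr : c ^ 2 - s ^ 2 = ∑ j, (-u) j * (-v) j := by simpa using hr
  have hneg : ∀ (z w : κ → ℝ), ip z (-w) = - ip z w := by
    intro z w
    simp [ip, Finset.sum_neg_distrib]
  have h0 : gm κ {z | sc (ip z u) (ip z v)} =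
      ((gaussianReal 0 1).prod (gaussianReal 0 1))
        {p : ℝ × ℝ | sc (c * p.1 + s * p.2) (c * p.1 - s * p.2)} := by
    have := key h1 u v c s 0 hu hv hcs hr
    simpa using this
  have hL : ∀ t : ℝ, gm κ {z | sc (ip z u - t) (ip z v - t)} ≤ gm κ {z | sc (ip z u) (ip z v)} := by
    intro t
    rw [key h1 u v c s t hu hv hcs hr, h0]
    exact h3 c s t hc hs
  have hL' : ∀ t : ℝ, gm κ {z | sc (- ip z u - t) (- ip z v - t)} ≤
      gm κ {z | sc (ip z u) (ip z v)} := by
    intro t
    have := key h1 (-u) (-v) c s t hnu hnv hcs hnr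
    simp only [hneg] at this
    rw [this, h0]
    exact h3 c s t hc hs
  have hU : ∀ t : ℝ, gm κ ({z | sc (ip z u - t) (ip z v - t)} ∪
      {z | sc (- ip z u - t) (- ip z v - t)}) ≤ 2 * gm κ {z | sc (ip z u) (ip z v)} := by
    intro t
    refine (measure_union_le _ _).trans ?_
    rw [two_mul]
    exact add_le_add (hL t) (hL' t)
  rcases lt_trichotomy a 0 with ha | ha | ha
  · by_cases hr0 : r < 0
    · -- always negative
      have : {z : κ → ℝ | sc (a * ip z u ^ 2 + r) (a * ip z v ^ 2 + r)} = ∅ := by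
        ext z
        simp only [sc, Set.mem_ofPred_eq, Set.mem_empty_iff_false, iff_false, not_not]
        have e1 : a * ip z u ^ 2 + r < 0 := by nlinarith [sq_nonneg (ip z u)]
        have e2 : a * ip z v ^ 2 + r < 0 := by nlinarith [sq_nonneg (ip z v)]
        exact ⟨fun _ => e2, fun _ => e1⟩
      rw [this]; simp
    · push Not at hr0
      have hq : 0 ≤ r / (-a) := div_nonneg hr0 (by linarith)
      have hy : ∀ y : ℝ, ¬ (a * y ^ 2 + r < 0) ↔ (-Real.sqrt (r / (-a)) ≤ y ∧
          y ≤ Real.sqrt (r / (-a))) := by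
        intro y
        rw [← Real.sq_le hq, le_div_iff₀ (by linarith), not_lt]
        constructor <;> intro h <;> nlinarith
      set t := Real.sqrt (r / (-a)) with ht
      refine (measure_mono ?_).trans (hU (-t))
      intro z hz
      simp only [sc, Set.mem_ofPred_eq, Set.mem_union] at hz ⊢
      have e1 := hy (ip z u)
      have e2 := hy (ip z v)
      by_cases b1 : a * ip z u ^ 2 + r < 0
      · by_cases b2 : a * ip z v ^ 2 + r < 0
        · exact absurd ⟨fun _ => b2, fun _ => b1⟩ hz
        · have f1 : ¬ (-t ≤ ip z u ∧ ip z u ≤ t) := fun h => (e1.2 h) b1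
          obtain ⟨f2, f3⟩ := e2.1 b2
          by_cases g : -t ≤ ip z u
          · right
            intro hh
            have g' : ¬ ip z u ≤ t := fun h => f1 ⟨g, h⟩
            push Not at g'
            have := hh.1 (by linarith)
            linarith
          · left
            intro hh
            push Not at g
            have := hh.1 (by linarith)
            linarith
      · by_cases b2 : a * ip z v ^ 2 + r < 0
        · have f1 : ¬ (-t ≤ ip z v ∧ ip z v ≤ t) := fun h => (e2.2 h) b2
          obtain ⟨f2, f3⟩ := e1.1 b1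
          by_cases g : -t ≤ ip z v
          · right
            intro hh
            have g' : ¬ ip z v ≤ t := fun h => f1 ⟨g, h⟩
            push Not at g'
            have := hh.2 (by linarith)
            linarith
          · left
            intro hh
            push Not at g
            have := hh.2 (by linarith)
            linarith
        · exact absurd ⟨fun h => absurd h b1, fun h => absurd h b2⟩ hz
  · subst ha
    have : {z : κ → ℝ | sc (0 * ip z u ^ 2 + r) (0 * ip z v ^ 2 + r)} = ∅ := by
      ext z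
      simp [sc]
    rw [this]; simp
  · have hy : ∀ y : ℝ, (a * y ^ 2 + r < 0) ↔ (-Real.sqrt (-r / a) < y ∧
        y < Real.sqrt (-r / a)) := by
      intro y
      rw [← Real.sq_lt, lt_div_iff₀ ha]
      constructor <;> intro h <;> nlinarith
    set t := Real.sqrt (-r / a) with ht
    refine (measure_mono ?_).trans (hU t)
    intro z hz
    simp only [sc, Set.mem_ofPred_eq, Set.mem_union] at hz ⊢
    have e1 := hy (ip z u)
    have e2 := hy (ip z v)
    by_cases b1 : a * ip z u ^ 2 + r < 0
    · by_cases b2 : a * ip z v ^ 2 + r < 0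
      · exact absurd ⟨fun _ => b2, fun _ => b1⟩ hz
      · have f1 : ¬ (-t < ip z v ∧ ip z v < t) := fun h => b2 (e2.2 h)
        obtain ⟨f2, f3⟩ := e1.1 b1
        by_cases g : -t < ip z v
        · left
          intro hh
          have g' : ¬ ip z v < t := fun h => f1 ⟨g, h⟩
          push Not at g'
          have := hh.1 (by linarith)
          linarith
        · right
          intro hh
          push Not at g
          have := hh.1 (by linarith)
          linarith
    · by_cases b2 : a * ip z v ^ 2 + r < 0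
      · have f1 : ¬ (-t < ip z u ∧ ip z u < t) := fun h => b1 (e1.2 h)
        obtain ⟨f2, f3⟩ := e2.1 b2
        by_cases g : -t < ip z u
        · left
          intro hh
          have g' : ¬ ip z u < t := fun h => f1 ⟨g, h⟩
          push Not at g'
          have := hh.2 (by linarith)
          linarith
        · right
          intro hh
          push Not at g
          have := hh.2 (by linarith)
          linarith
      · exact absurd ⟨fun h => absurd h b1, fun h => absurd h b2⟩ hz

end Pool.Agent.W899.RS.GA4
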